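import Mathlib

set_option autoImplicit false

namespace Pool.Agent.MP_d1c425_co

/-- The space `F_2^6`. -/
abbrev V : Type := Fin 6 → ZMod 2

/-- `D` is a `2-(6,3,lam)_2` subspace design: its members are 3-subspaces of `F_2^6` and every
2-subspace lies in exactly `lam` of them. -/
def IsDesign (lam : ℕ) (D : Set (Submodule (ZMod 2) V)) : Prop :=
  (∀ B ∈ D, Module.finrank (ZMod 2) B = 3) ∧
    ∀ T : Submodule (ZMod 2) V, Module.finrank (ZMod 2) T = 2 →
      {B | B ∈ D ∧ T ≤ B}.ncard = lam

end Pool.Agent.MP_d1c425_co
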